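import Pool.Agent.KS6_32.MO.Far

set_option autoImplicit false

/-!
# Sets of integers invariant under the Collatz map are far from all morphic sequences

A sequence over a finite alphabet is morphic if it is obtained, by a coding of the letters, from a sequence `u`
that is fixed by a substitution `σ` (the image of every prefix of `u` is a prefix of `u`, the image of the first
letter has at least two letters, and no image is empty). Examples are the automatic sequences, the periodic
sequences, the Fibonacci word, the characteristic Sturmian words of quadratic slope, the indicator of the squares,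
and in general the sets recognised by a finite automaton in an abstract numeration system.

Let `S` be a set of integers invariant under the Collatz map which contains some but not all integers of sign
`s`. For every morphic sequence `v` and every `ε > 0` there are infinitely many `X` such that `v n` differs from
the indicator of `s n ∈ S` for more than `X / (√ (log X) (log log X) ^ (1 + ε))` of the `n ≤ X`. This holds
unconditionally for the negative integers, with the basins of `-1`, `-5` and `-17`; and on the positive side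
it makes the morphicity of one set equivalent to the conjecture.

Method. The pairs of adjacent letters of the `n`-th image of a letter are counted by the powers of a nonnegative
matrix, so the number of the changes of value of `v` and the number of all letters, up to the length of the
`n`-th image of the first letter, are exponential polynomials in `n` of orders `n ^ e ρ ^ n`, with integers `e`.
Hence the number of the changes up to `X` is either not `o (X)` or `O (X / log X)`. But the number of the changes
of `1_S` is `o (X)`, since almost all pairs of neighbours coalesce, and for infinitely many `X` it is larger than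
`X / (√ (log X) (log log X) ^ (1 + ε))`: the exponent `1 / 2` of the logarithm, which comes from a random
walk, is not possible for a morphic sequence.
-/

namespace Pool.Agent.Results.MP_d02c56_nt.FarFromMorphicSequences

open Filter Topology

/-- The Collatz map on the integers. -/
def C (x : ℤ) : ℤ := if x % 2 = 0 then x / 2 else 3 * x + 1

/-- `S` is invariant under the Collatz map and its inverse. -/
def Invariant (S : Set ℤ) : Prop := ∀ x : ℤ, x ∈ S ↔ C x ∈ S

/-- The trajectories of `x` and `y` meet. -/
def Meet (x y : ℤ) : Prop := ∃ k l : ℕ, C^[k] x = C^[l] y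

/-- The number of members of `B` in `[1, X]`. -/
noncomputable def upTo (B : Set ℕ) (X : ℕ) : ℕ := {n : ℕ | 1 ≤ n ∧ n ≤ X ∧ n ∈ B}.ncard

/-- The integers whose trajectory passes through `a`. -/
def Basin (a : ℤ) : Set ℤ := {x | ∃ k : ℕ, C^[k] x = a}

/-- The union of the five known cycles. -/
def Known : Finset ℤ := {1, 4, 2, -1, -2, -5, -14, -7, -20, -10, -17, -50, -25, -74, -37, -110,
  -55, -164, -82, -41, -122, -61, -182, -91, -272, -136, -68, -34, 0}

/-- The trajectory of `x` reaches one of the five known cycles. -/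
def Reaches (x : ℤ) : Prop := ∃ k : ℕ, C^[k] x ∈ Known

/-- The prefix of length `m` of the sequence `u`. -/
def pref {A : Type} (u : ℕ → A) (m : ℕ) : List A := (List.range m).map u

/-- The sequence `v` is morphic: it is the image, under a coding `τ` of the letters, of a sequence `u` over a
finite alphabet `A` that is fixed by the substitution `σ` of words for letters: no letter is replaced by the empty
word, the first letter of `u` is replaced by a word of at least two letters, and the word obtained from any
prefix of `u` is again a prefix of `u`. -/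
def Morphic (v : ℕ → Bool) : Prop :=
  ∃ (A : Type) (_ : Finite A) (σ : A → List A) (τ : A → Bool) (u : ℕ → A),
    (∀ b, σ b ≠ []) ∧ 2 ≤ (σ (u 0)).length ∧ (∀ m, ∃ k, (pref u m).flatMap σ = pref u k) ∧ ∀ n, v n = τ (u n)

/-- The `n` at which `v` differs from the indicator of `s n ∈ S`. -/
def Mismatch (v : ℕ → Bool) (s : ℤ) (S : Set ℤ) : Set ℕ := {n : ℕ | ¬ (v n = true ↔ s * n ∈ S)}

/-- For every `ε > 0` there are infinitely many `X` such that `v` differs from the indicator of `s n ∈ S` for
more than `X / (√ (log X) (log log X) ^ (1 + ε))` of the `n` in `[1, X]`. -/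
def Far (v : ℕ → Bool) (s : ℤ) (S : Set ℤ) : Prop := ∀ ε : ℝ, 0 < ε → ∃ᶠ X : ℕ in atTop,
  X / (√ (Real.log X) * Real.log (Real.log X) ^ (1 + ε)) < (upTo (Mismatch v s S) X : ℝ)

/-- The indicator of `s n ∈ S`, `n ≥ 1`, is a morphic sequence. -/
def MorphicSide (s : ℤ) (S : Set ℤ) : Prop := ∃ v : ℕ → Bool, Morphic v ∧ ∀ n : ℕ, 1 ≤ n → (v n = true ↔ s * n ∈ S)

open Pool.Agent.H499R2.ND Pool.Agent.W41 Pool.Agent.Y965.SI Pool.Agent.KS6_32.BD Pool.Agent.KS6_32.MO Finset

theorem inv_of {S : Set ℤ} (hS : Invariant S) : Inv 1 S := by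
  intro x
  unfold Td
  by_cases h : x % 2 = 0
  · rw [if_pos h, hS x]
    unfold C
    rw [if_pos h]
  · rw [if_neg h, hS x, hS (C x)]
    have h1 : C (C x) = (3 * x + 1) / 2 := by
      unfold C
      rw [if_neg h, if_pos (by omega)]
    rw [h1]

open Classical in
theorem upTo_card (B : Set ℕ) (X : ℕ) : upTo B X = ((Icc 1 X).filter fun n => n ∈ B).card := by
  unfold upTo
  have e : {n : ℕ | 1 ≤ n ∧ n ≤ X ∧ n ∈ B} = ((Icc 1 X).filter fun n : ℕ => n ∈ B : Finset ℕ) := by
    ext n
    simp only [Set.mem_ofPred_eq, coe_filter, mem_Icc, and_assoc]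
  rw [e, Set.ncard_coe_finset]

theorem basin_inv {a : ℤ} {k : ℕ} (hk : 1 ≤ k) (ha : C^[k] a = a) : Invariant (Basin a) := by
  intro x
  constructor
  · rintro ⟨j, hj⟩
    rcases j with _ | j
    · have hx : x = a := hj
      obtain ⟨m, rfl⟩ : ∃ m, k = m + 1 := ⟨k - 1, by omega⟩
      exact ⟨m, by rw [hx, ← Function.iterate_succ_apply]; exact ha⟩
    · exact ⟨j, by rwa [Function.iterate_succ_apply] at hj⟩
  · rintro ⟨j, hj⟩
    exact ⟨j + 1, by rwa [Function.iterate_succ_apply]⟩

/-- the trajectory of `-1` does not meet `-5`, `-17` -/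
theorem orbit_neg_one (j : ℕ) : C^[j] (-1) = -1 ∨ C^[j] (-1) = -2 := by
  induction j with
  | zero => left; rfl
  | succ j ih =>
    rw [Function.iterate_succ_apply']
    rcases ih with h | h <;> rw [h]
    · right; decide
    · left; decide

theorem orbit_neg_five (j : ℕ) : C^[j] (-5) ∈ ({-5, -14, -7, -20, -10} : Finset ℤ) := by
  induction j with
  | zero => decide
  | succ j ih =>
    rw [Function.iterate_succ_apply']
    generalize C^[j] (-5) = y at ih
    fin_cases ih <;> decide

theorem basins {a : ℤ} (ha : a = -1 ∨ a = -5 ∨ a = -17) : Invariant (Basin a) ∧ (∃ x ∈ Basin a, 0 < (-1) * x) ∧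
    ∃ x ∉ Basin a, 0 < (-1) * x := by
  rcases ha with rfl | rfl | rfl
  · refine ⟨basin_inv (k := 2) (by norm_num) (by decide), ⟨-1, ⟨0, rfl⟩, by norm_num⟩, -5, ?_, by norm_num⟩
    rintro ⟨j, hj⟩
    have := orbit_neg_five j
    rw [hj] at this
    revert this
    decide
  · refine ⟨basin_inv (k := 5) (by norm_num) (by decide), ⟨-5, ⟨0, rfl⟩, by norm_num⟩, -1, ?_, by norm_num⟩
    rintro ⟨j, hj⟩
    rcases orbit_neg_one j with h | h <;> rw [h] at hj <;> norm_num at hj
  · refine ⟨basin_inv (k := 18) (by norm_num) (by decide), ⟨-17, ⟨0, rfl⟩, by norm_num⟩, -1, ?_, by norm_num⟩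
    rintro ⟨j, hj⟩
    rcases orbit_neg_one j with h | h <;> rw [h] at hj <;> norm_num at hj

theorem inv_reaches : Invariant {x | Reaches x} := by
  intro x
  constructor
  · rintro ⟨k, hk⟩
    rcases k with _ | k
    · refine ⟨0, ?_⟩
      have hk' : x ∈ Known := hk
      show C x ∈ Known
      fin_cases hk' <;> decide
    · exact ⟨k, by rwa [Function.iterate_succ_apply] at hk⟩
  · rintro ⟨k, hk⟩
    exact ⟨k + 1, by rwa [Function.iterate_succ_apply]⟩

theorem not_meet : (-1 : ℤ) ∉ Kc (-5) := by
  rintro ⟨i, j, h⟩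
  have h1 : C^[i] (-1) = C^[j] (-5) := h
  have h2 := orbit_neg_five j
  rw [← h1] at h2
  rcases orbit_neg_one i with h3 | h3 <;> rw [h3] at h2 <;> revert h2 <;> decide

theorem some_reach {s : ℤ} (hs : s = 1 ∨ s = -1) : ∃ x ∈ {y | Reaches y}, 0 < s * x := by
  rcases hs with rfl | rfl
  · exact ⟨1, ⟨0, by decide⟩, by norm_num⟩
  · exact ⟨-1, ⟨0, by decide⟩, by norm_num⟩


open Classical in
theorem far_of {s : ℤ} (hs : s = 1 ∨ s = -1) {S : Set ℤ} (hS : Invariant S) (h1 : ∃ x ∈ S, 0 < s * x)
    (h2 : ∃ x ∉ S, 0 < s * x) {v : ℕ → Bool} (hv : Morphic v) : Far v s S := by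
  intro ε hε
  obtain ⟨A, hA, σ, τ, u, hσ, h0, hu, hvu⟩ := hv
  have hv' : v = fun n => τ (u n) := funext hvu
  subst hv'
  refine (far hs (inv_of hS) h1 h2 (fun hlim => border_small τ hσ h0 hu hlim) hε).mono fun X hX => ?_
  rw [upTo_card]
  have e : ((Icc 1 X).filter fun n => n ∈ Mismatch (fun n => τ (u n)) s S)
      = ((Icc 1 X).filter fun n => ¬ (τ (u n) = true ↔ s * (n : ℤ) ∈ S)) := by
    ext n
    rw [mem_filter, mem_filter]
    rfl
  rw [e]
  exact hX

/-- constant sequences are morphic -/
theorem morphic_const (b : Bool) : Morphic fun _ => b := by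
  refine ⟨Unit, inferInstance, fun _ => [(), ()], fun _ => b, fun _ => (), by simp, by simp, fun m => ⟨2 * m, ?_⟩,
    fun n => rfl⟩
  apply List.ext_getElem?
  intro i
  have h1 : ∀ k, pref (fun _ => ()) k = List.replicate k () := by
    intro k
    unfold pref
    rw [List.map_const', List.length_range]
  rw [h1, h1]
  congr 1
  induction m with
  | zero => rfl
  | succ m ih =>
    rw [List.replicate_succ, List.flatMap_cons, ih, show 2 * (m + 1) = (2 * m + 1) + 1 by ring,
      List.replicate_succ, List.replicate_succ]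
    rfl

theorem not_far {v : ℕ → Bool} {s : ℤ} {S : Set ℤ} (h : ∀ n : ℕ, 1 ≤ n → (v n = true ↔ s * n ∈ S)) : ¬ Far v s S := by
  intro hf
  obtain ⟨X, hX, hX1, hX2⟩ := ((hf 1 one_pos).and_eventually ((log_top.eventually (eventually_gt_atTop 0)).and
    (loglog_top.eventually (eventually_gt_atTop 0)))).exists
  have e : {n : ℕ | 1 ≤ n ∧ n ≤ X ∧ n ∈ Mismatch v s S} = ∅ := by
    rw [Set.eq_empty_iff_forall_notMem]
    rintro n ⟨h1, -, h2⟩
    exact h2 (h n h1)
  unfold upTo at hX
  rw [e, Set.ncard_empty] at hX
  have : 0 ≤ (X : ℝ) / (√ (Real.log X) * Real.log (Real.log X) ^ ((1 : ℝ) + 1)) := by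
    have := Real.rpow_nonneg hX2.le ((1 : ℝ) + 1)
    positivity
  push_cast at hX
  linarith

theorem side_const {s : ℤ} {S : Set ℤ} (h : ∀ x : ℤ, 0 < s * x → x ∈ S) (hs : s = 1 ∨ s = -1) : MorphicSide s S := by
  refine ⟨fun _ => true, morphic_const true, fun n hn => ⟨fun _ => h _ ?_, fun _ => rfl⟩⟩
  have hn0 : (1 : ℤ) ≤ n := by exact_mod_cast hn
  rw [s_mul hs]
  omega

/-- the class of `a` -/
theorem class_inv (a : ℤ) : Invariant {x | Meet a x} := by
  intro x
  constructor
  · rintro ⟨k, l, h⟩
    exact ⟨k + 1, l, by rw [Function.iterate_succ_apply', h, ← Function.iterate_succ_apply' C l x, Function.iterate_succ_apply]⟩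
  · rintro ⟨k, l, h⟩
    exact ⟨k, l + 1, by rw [Function.iterate_succ_apply]; exact h⟩

theorem meet_trans {a b c : ℤ} (h1 : Meet a b) (h2 : Meet a c) : Meet b c := by
  obtain ⟨k, l, h1⟩ := h1
  obtain ⟨k', l', h2⟩ := h2
  refine ⟨k' + l, k + l', ?_⟩
  rw [Function.iterate_add_apply, ← h1, ← Function.iterate_add_apply, add_comm k' k, Function.iterate_add_apply, h2,
    ← Function.iterate_add_apply]

theorem not_all_meet (a : ℤ) : ∃ x ∉ {x | Meet a x}, 0 < (-1) * x := by
  by_contra hcon
  push Not at hcon
  have h1 : Meet a (-1) := by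
    by_contra h
    have := hcon (-1) h
    norm_num at this
  have h2 : Meet a (-5) := by
    by_contra h
    have := hcon (-5) h
    norm_num at this
  obtain ⟨i, j, h⟩ := meet_trans h1 h2
  have h3 := orbit_neg_five j
  rw [← h] at h3
  rcases orbit_neg_one i with h4 | h4 <;> rw [h4] at h3 <;> revert h3 <;> decide

/-- (1) Let `S` be invariant and contain some but not all integers of sign `s`. For every morphic sequence `v` and
every `ε > 0` there are infinitely many `X` such that `v n = 1` and `s n ∈ S` are not equivalent for more than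
`X / (√ (log X) (log log X) ^ (1 + ε))` of the `n` in `[1, X]`.
(2) This holds for the sets of the negative integers that reach `-1`, that reach `-5` and that reach `-17`,
(3) and for the negative integers whose trajectory meets that of `a`, for every `a < 0`.
(4) The trajectories of any two positive integers meet if and only if, for every `a > 0`, the indicator of the
positive integers whose trajectory meets that of `a` is a morphic sequence.
(5) All integers of sign `s` reach the known cycles if and only if the indicator of those that do is morphic, if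
and only if it is not far from some morphic sequence.
(6) All integers reach the known cycles if and only if this holds for both signs. -/
theorem result :
    (∀ s : ℤ, (s = 1 ∨ s = -1) → ∀ S : Set ℤ, Invariant S → (∃ x ∈ S, 0 < s * x) → (∃ x ∉ S, 0 < s * x) →
      ∀ v : ℕ → Bool, Morphic v → Far v s S) ∧
    (∀ a : ℤ, (a = -1 ∨ a = -5 ∨ a = -17) → ∀ v : ℕ → Bool, Morphic v → Far v (-1) (Basin a)) ∧
    (∀ a : ℤ, a < 0 → ∀ v : ℕ → Bool, Morphic v → Far v (-1) {x | Meet a x}) ∧
    ((∀ x y : ℤ, 0 < x → 0 < y → Meet x y) ↔ ∀ a : ℤ, 0 < a → MorphicSide 1 {x | Meet a x}) ∧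
    (∀ s : ℤ, (s = 1 ∨ s = -1) →
      ((∀ x : ℤ, 0 < s * x → Reaches x) ↔ MorphicSide s {x | Reaches x}) ∧
      ((∀ x : ℤ, 0 < s * x → Reaches x) ↔ ∃ v : ℕ → Bool, Morphic v ∧ ¬ Far v s {x | Reaches x})) ∧
    ((∀ x : ℤ, Reaches x) ↔ MorphicSide 1 {x | Reaches x} ∧ MorphicSide (-1) {x | Reaches x}) := by
  have hlaw : ∀ s : ℤ, (s = 1 ∨ s = -1) → ∀ S : Set ℤ, Invariant S → (∃ x ∈ S, 0 < s * x) → (∃ x ∉ S, 0 < s * x) →
      ∀ v : ℕ → Bool, Morphic v → Far v s S := fun s hs S hS h1 h2 v hv => far_of hs hS h1 h2 hv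
  have hside : ∀ s : ℤ, (s = 1 ∨ s = -1) →
      ((∀ x : ℤ, 0 < s * x → Reaches x) ↔ MorphicSide s {x | Reaches x}) ∧
      ((∀ x : ℤ, 0 < s * x → Reaches x) ↔ ∃ v : ℕ → Bool, Morphic v ∧ ¬ Far v s {x | Reaches x}) := by
    intro s hs
    have h1 : (∀ x : ℤ, 0 < s * x → Reaches x) → MorphicSide s {x | Reaches x} := fun h => side_const h hs
    have h2 : MorphicSide s {x | Reaches x} → ∃ v : ℕ → Bool, Morphic v ∧ ¬ Far v s {x | Reaches x} := by
      rintro ⟨v, hv, h⟩
      exact ⟨v, hv, not_far h⟩
    have h3 : (∃ v : ℕ → Bool, Morphic v ∧ ¬ Far v s {x | Reaches x}) → ∀ x : ℤ, 0 < s * x → Reaches x := by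
      rintro ⟨v, hv, h⟩
      by_contra hcon
      push Not at hcon
      obtain ⟨y, hy0, hy⟩ := hcon
      exact h (hlaw s hs _ inv_reaches (some_reach hs) ⟨y, hy, hy0⟩ v hv)
    exact ⟨⟨h1, fun h => h3 (h2 h)⟩, ⟨fun h => h2 (h1 h), h3⟩⟩
  refine ⟨hlaw, ?_, ?_, ?_, hside, ?_⟩
  · intro a ha v hv
    obtain ⟨h1, h2, h3⟩ := basins ha
    exact hlaw (-1) (Or.inr rfl) _ h1 h2 h3 v hv
  · intro a ha v hv
    exact hlaw (-1) (Or.inr rfl) _ (class_inv a) ⟨a, ⟨0, 0, rfl⟩, by linarith⟩ (not_all_meet a) v hv
  · constructor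
    · intro h a ha
      apply side_const _ (Or.inl rfl)
      intro x hx
      exact h a x ha (by linarith)
    · intro h x y hx hy
      by_contra hxy
      obtain ⟨v, hv, hv2⟩ := h x hx
      exact not_far hv2 (hlaw 1 (Or.inl rfl) _ (class_inv x) ⟨x, ⟨0, 0, rfl⟩, by linarith⟩ ⟨y, hxy, by linarith⟩ v hv)
  · constructor
    · intro h
      exact ⟨(hside 1 (Or.inl rfl)).1.1 fun x _ => h x, (hside (-1) (Or.inr rfl)).1.1 fun x _ => h x⟩
    · rintro ⟨h1, h2⟩ x
      rcases lt_trichotomy x 0 with hx | hx | hx
      · exact (hside (-1) (Or.inr rfl)).1.2 h2 x (by linarith)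
      · exact ⟨0, by rw [hx]; decide⟩
      · exact (hside 1 (Or.inl rfl)).1.2 h1 x (by linarith)

end Pool.Agent.Results.MP_d02c56_nt.FarFromMorphicSequences
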